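import Pool.Agent.Lib_helper44.Emb.Sep

/-!
Hierarchical clusters.
-/

set_option linter.unusedSectionVars false

namespace Pool.Agent.Lib44.Emb

open Finset

universe u
variable {M : Type u} [Fintype M] [DecidableEq M] [MetricSpace M] {N : ℕ}

/-- The cluster of `i` at level `l`. -/
noncomputable def clus (ω : ℕ → Seed M N) : ℕ → M → Finset M
  | 0, _ => univ
  | l + 1, i => (clus ω l i).filter fun j => ctr (ω l) (clus ω l i) j = ctr (ω l) (clus ω l i) i

theorem clus_zero (ω : ℕ → Seed M N) (i : M) : clus ω 0 i = univ := rfl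

theorem clus_succ (ω : ℕ → Seed M N) (l : ℕ) (i : M) : clus ω (l + 1) i =
    (clus ω l i).filter fun j => ctr (ω l) (clus ω l i) j = ctr (ω l) (clus ω l i) i := rfl

theorem self_mem (ω : ℕ → Seed M N) (l : ℕ) (i : M) : i ∈ clus ω l i := by
  induction l with
  | zero => exact mem_univ _
  | succ l ih => rw [clus_succ, mem_filter]; exact ⟨ih, rfl⟩

theorem clus_eq_of_mem (ω : ℕ → Seed M N) (l : ℕ) {i j : M} (h : j ∈ clus ω l i) :
    clus ω l j = clus ω l i := by
  induction l with
  | zero => rfl
  | succ l ih =>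
    rw [clus_succ, mem_filter] at h
    have e := ih h.1
    rw [clus_succ, clus_succ, e, h.2]

/-- The centre of `i` at level `l`. -/
noncomputable def cen (ω : ℕ → Seed M N) (l : ℕ) (i : M) : M := ctr (ω l) (clus ω l i) i

theorem cen_mem (ω : ℕ → Seed M N) (l : ℕ) (i : M) : cen ω l i ∈ clus ω l i :=
  ctr_mem _ (self_mem ω l i)

theorem clus_cen (ω : ℕ → Seed M N) (l : ℕ) (i : M) : clus ω l (cen ω l i) = clus ω l i :=
  clus_eq_of_mem ω l (cen_mem ω l i)

theorem clus_eq_of_cen_eq {ω : ℕ → Seed M N} {l : ℕ} {i j : M} (h : cen ω l i = cen ω l j) :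
    clus ω l i = clus ω l j := by
  rw [← clus_cen ω l i, h, clus_cen]

theorem clus_succ_eq_of_cen_eq {ω : ℕ → Seed M N} {l : ℕ} {i j : M} (h : cen ω l i = cen ω l j) :
    clus ω (l + 1) i = clus ω (l + 1) j := by
  have h1 := clus_eq_of_cen_eq h
  have h2 : ctr (ω l) (clus ω l i) i = ctr (ω l) (clus ω l j) j := h
  rw [clus_succ, clus_succ, h2, h1]

theorem cen_eq_of_clus_succ_eq {ω : ℕ → Seed M N} {l : ℕ} {i j : M}
    (h : clus ω (l + 1) i = clus ω (l + 1) j) : cen ω l i = cen ω l j := by
  have h1 : i ∈ clus ω (l + 1) j := by rw [← h]; exact self_mem _ _ _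
  rw [clus_succ, mem_filter] at h1
  have h2 := clus_eq_of_mem ω l h1.1
  unfold cen
  rw [h2]
  exact h1.2

/-- The half radius at the centre of `i` at level `l`. -/
noncomputable def rho (ω : ℕ → Seed M N) (l : ℕ) (i : M) : ℝ := rad (clus ω l i) (cen ω l i)

theorem rho_nonneg (ω : ℕ → Seed M N) (l : ℕ) (i : M) : 0 ≤ rho ω l i := rad_nonneg _ _

theorem dist_cen_of_mem (ω : ℕ → Seed M N) (l : ℕ) {i y : M} (h : y ∈ clus ω (l + 1) i) :
    dist y (cen ω l i) ≤ 1 / 4 * rho ω l i := by
  rw [clus_succ, mem_filter] at h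
  have h1 := dist_ctr' (ω l) h.1
  rw [h.2] at h1
  exact h1

theorem rho_succ_le (ω : ℕ → Seed M N) (l : ℕ) (i : M) : rho ω (l + 1) i ≤ 1 / 2 * rho ω l i := by
  apply rad_le_of_forall ⟨i, self_mem ω (l + 1) i⟩
  intro y hy
  have h1 := dist_cen_of_mem ω l hy
  have h2 := dist_cen_of_mem ω l (cen_mem ω (l + 1) i)
  have h3 := dist_triangle (cen ω (l + 1) i) (cen ω l i) y
  rw [dist_comm (cen ω l i) y] at h3
  linarith

theorem card_clus_succ (ω : ℕ → Seed M N) (l : ℕ) (i : M) :
    (clus ω (l + 1) i).card ≤ 1 ∨ 2 * (clus ω (l + 1) i).card ≤ (clus ω l i).card := by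
  by_cases h : 2 ≤ (clus ω l i).card
  · right
    refine le_trans ?_ (card_open_ball (S := clus ω l i) (cen ω l i))
    apply Nat.mul_le_mul_left
    apply card_le_card
    intro y hy
    have h1 := dist_cen_of_mem ω l hy
    rw [clus_succ, mem_filter] at hy
    rw [mem_filter]
    refine ⟨hy.1, ?_⟩
    rw [dist_comm]
    have h2 : 0 < rho ω l i := rad_pos h _
    have h3 : rad (clus ω l i) (cen ω l i) = rho ω l i := rfl
    rw [h3]
    linarith
  · left
    have : (clus ω (l + 1) i).card ≤ (clus ω l i).card := by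
      rw [clus_succ]; exact card_filter_le _ _
    omega

theorem card_clus (ω : ℕ → Seed M N) (l : ℕ) (i : M) :
    (clus ω l i).card ≤ 1 ∨ 2 ^ l * (clus ω l i).card ≤ Fintype.card M := by
  induction l with
  | zero => right; simp [clus_zero]
  | succ l ih =>
    rcases card_clus_succ ω l i with h | h
    · left; exact h
    · rcases ih with h2 | h2
      · left; omega
      · right
        calc 2 ^ (l + 1) * (clus ω (l + 1) i).card = 2 ^ l * (2 * (clus ω (l + 1) i).card) := by ring
          _ ≤ 2 ^ l * (clus ω l i).card := Nat.mul_le_mul_left _ h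
          _ ≤ _ := h2

theorem clus_final (ω : ℕ → Seed M N) {k : ℕ} (hk : Fintype.card M < 2 ^ k) (i : M) :
    clus ω k i = {i} := by
  have h1 : (clus ω k i).card ≤ 1 := by
    rcases card_clus ω k i with h | h
    · exact h
    · by_contra hcon
      push Not at hcon
      have : 2 ^ k * 1 ≤ 2 ^ k * (clus ω k i).card := Nat.mul_le_mul_left _ (by omega)
      omega
  rw [card_le_one] at h1
  ext j
  rw [mem_singleton]
  constructor
  · intro h; exact h1 j h i (self_mem _ _ _)
  · rintro rfl; exact self_mem _ _ _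

/-- The cost of level `l`. -/
noncomputable def lev (ω : ℕ → Seed M N) (l : ℕ) (i j : M) : ℝ :=
  if cen ω l i = cen ω l j then 0 else 2 * rho ω l i + 2 * rho ω l j

/-- The cost of the first separation. -/
noncomputable def fst (ω : ℕ → Seed M N) (l : ℕ) (i j : M) : ℝ :=
  if clus ω l i = clus ω l j then lev ω l i j else 0

theorem lev_nonneg (ω : ℕ → Seed M N) (l : ℕ) (i j : M) : 0 ≤ lev ω l i j := by
  unfold lev
  split_ifs
  · exact le_refl _
  · have := rho_nonneg ω l i
    have := rho_nonneg ω l j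
    positivity

theorem fst_nonneg (ω : ℕ → Seed M N) (l : ℕ) (i j : M) : 0 ≤ fst ω l i j := by
  unfold fst
  split_ifs
  · exact lev_nonneg _ _ _ _
  · exact le_refl _

theorem lev_succ_le (ω : ℕ → Seed M N) (l : ℕ) (i j : M) :
    lev ω (l + 1) i j ≤ 1 / 2 * lev ω l i j + fst ω (l + 1) i j := by
  by_cases h : clus ω (l + 1) i = clus ω (l + 1) j
  · have h1 : fst ω (l + 1) i j = lev ω (l + 1) i j := by rw [fst, if_pos h]
    rw [h1]
    have := lev_nonneg ω l i j
    linarith
  · have h1 : ¬ cen ω l i = cen ω l j := fun h' => h (clus_succ_eq_of_cen_eq h')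
    have h2 : ¬ cen ω (l + 1) i = cen ω (l + 1) j := fun h' => h (clus_eq_of_cen_eq h')
    have h3 := fst_nonneg ω (l + 1) i j
    have h4 := rho_succ_le ω l i
    have h5 := rho_succ_le ω l j
    rw [lev, lev, if_neg h1, if_neg h2]
    linarith

theorem sum_lev_le (ω : ℕ → Seed M N) (k : ℕ) (i j : M) :
    ∑ l ∈ range (k + 1), lev ω l i j + lev ω k i j ≤ 2 * ∑ l ∈ range (k + 1), fst ω l i j := by
  induction k with
  | zero =>
    have h : fst ω 0 i j = lev ω 0 i j := by
      rw [fst, if_pos]; rw [clus_zero, clus_zero]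
    simp [h]; linarith
  | succ k ih =>
    rw [sum_range_succ, sum_range_succ _ (k + 1)]
    have := lev_succ_le ω k i j
    linarith

theorem exists_sep (ω : ℕ → Seed M N) {k : ℕ} (hk : Fintype.card M < 2 ^ k) {i j : M}
    (hij : i ≠ j) : ∃ l < k, clus ω l i = clus ω l j ∧ ¬ clus ω (l + 1) i = clus ω (l + 1) j := by
  by_contra hcon
  push Not at hcon
  have h : ∀ l ≤ k, clus ω l i = clus ω l j := by
    intro l
    induction l with
    | zero => intro _; rfl
    | succ l ih => intro hl; exact hcon l (by omega) (ih (by omega))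
  have h1 := h k le_rfl
  rw [clus_final ω hk, clus_final ω hk] at h1
  exact hij (singleton_injective h1)

theorem dist_le_sum_lev (ω : ℕ → Seed M N) {k : ℕ} (hk : Fintype.card M < 2 ^ k) (i j : M) :
    dist i j ≤ ∑ l ∈ range k, lev ω l i j := by
  by_cases hij : i = j
  · subst hij
    rw [dist_self]
    exact sum_nonneg fun l _ => lev_nonneg _ _ _ _
  · obtain ⟨l, hl, h1, h2⟩ := exists_sep ω hk hij
    refine le_trans ?_ (single_le_sum (f := fun l => lev ω l i j)
      (fun l _ => lev_nonneg _ _ _ _) (mem_range.mpr hl))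
    have h3 : ¬ cen ω l i = cen ω l j := fun h => h2 (clus_succ_eq_of_cen_eq h)
    have h4 := dist_le_rad_add ⟨i, self_mem ω l i⟩ i j
    have h5 := rad_le_ctr (ω l) (self_mem ω l i)
    have h6 := rad_le_ctr (ω l) (self_mem ω l j)
    rw [← h1] at h6
    have h7 := rho_nonneg ω l i
    have h8 := rho_nonneg ω l j
    simp only [lev]
    rw [if_neg h3]
    have h9 : rho ω l i = rad (clus ω l i) (ctr (ω l) (clus ω l i) i) := rfl
    have h10 : rho ω l j = rad (clus ω l i) (ctr (ω l) (clus ω l i) j) := by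
      unfold rho cen; rw [h1]
    rw [← h9] at h5
    rw [← h10] at h6
    linarith

/-! ### Averages -/

/-- Extend a finite sequence of seeds. -/
noncomputable def ext {k : ℕ} (s0 : Seed M N) (ω : Fin k → Seed M N) (l : ℕ) : Seed M N :=
  if h : l < k then ω ⟨l, h⟩ else s0

theorem ext_update_of_ne {k : ℕ} (s0 : Seed M N) (ω : Fin k → Seed M N) (l : Fin k)
    (s : Seed M N) {l' : ℕ} (h : l' ≠ l) : ext s0 (Function.update ω l s) l' = ext s0 ω l' := by
  unfold ext
  split_ifs with h1
  · rw [Function.update_of_ne]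
    intro h2
    apply h
    rw [← h2]
  · rfl

theorem ext_update_self {k : ℕ} (s0 : Seed M N) (ω : Fin k → Seed M N) (l : Fin k)
    (s : Seed M N) : ext s0 (Function.update ω l s) l = s := by
  unfold ext
  rw [dif_pos l.isLt]
  simp

theorem clus_update {k : ℕ} (s0 : Seed M N) (ω : Fin k → Seed M N) (l : Fin k)
    (s : Seed M N) (l' : ℕ) (h : l' ≤ l) (i : M) :
    clus (ext s0 (Function.update ω l s)) l' i = clus (ext s0 ω) l' i := by
  induction l' with
  | zero => rfl
  | succ l' ih =>
    rw [clus_succ, clus_succ, ih (by omega), ext_update_of_ne s0 ω l s (by omega)]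

theorem resample {k : ℕ} {S : Type*} [Fintype S] (l : Fin k) (F : (Fin k → S) → ℝ) :
    (Fintype.card S : ℝ) * ∑ ω, F ω = ∑ ω : Fin k → S, ∑ s : S, F (Function.update ω l s) := by
  classical
  let e : (Fin k → S) × S ≃ (Fin k → S) × S :=
    { toFun := fun p => (Function.update p.1 l p.2, p.1 l)
      invFun := fun p => (Function.update p.1 l p.2, p.1 l)
      left_inv := fun p => by simp
      right_inv := fun p => by simp }
  have h := Equiv.sum_comp e (fun p => F p.1)
  rw [← Fintype.sum_prod_type' (f := fun ω s => F (Function.update ω l s))]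
  have h2 : ∑ p : (Fin k → S) × S, F p.1 = (Fintype.card S : ℝ) * ∑ ω, F ω := by
    rw [Fintype.sum_prod_type, mul_sum]
    apply sum_congr rfl
    intro ω _
    simp only [sum_const, nsmul_eq_mul, card_univ]
  rw [← h2, ← h]
  rfl

theorem harmonic_mono {a b : ℕ} (h : a ≤ b) : (harmonic a : ℝ) ≤ harmonic b := by
  have : harmonic a ≤ harmonic b := by
    unfold harmonic
    apply sum_le_sum_of_subset_of_nonneg
    · exact range_subset_range.mpr h
    · intro i _ _; positivity
  exact_mod_cast this

theorem sum_fst_le {k : ℕ} (hN : 0 < N) (s0 : Seed M N) (l : Fin k) {i j : M} (hij : i ≠ j)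
    {D : ℝ} (hD : ∀ x y : M, dist x y ≤ D) (hND : D ≤ N * dist i j) :
    ∑ ω : Fin k → Seed M N, fst (ext s0 ω) l i j ≤
      (Fintype.card (Fin k → Seed M N) : ℝ) *
        ((88 * harmonic (Fintype.card M) + 8) * dist i j) := by
  have hS : (0 : ℝ) < Fintype.card (Seed M N) := by
    have : 0 < Fintype.card (Seed M N) := Fintype.card_pos_iff.mpr ⟨s0⟩
    exact_mod_cast this
  rw [← mul_le_mul_iff_right₀ hS, resample l]
  have key : ∀ ω : Fin k → Seed M N,
      ∑ s : Seed M N, fst (ext s0 (Function.update ω l s)) l i j ≤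
        (Fintype.card (Seed M N) : ℝ) * ((88 * harmonic (Fintype.card M) + 8) * dist i j) := by
    intro ω
    by_cases h : clus (ext s0 ω) l i = clus (ext s0 ω) l j
    · have e : ∀ s : Seed M N, fst (ext s0 (Function.update ω l s)) l i j =
          (if ctr s (clus (ext s0 ω) l i) i = ctr s (clus (ext s0 ω) l i) j then (0 : ℝ) else
            2 * rad (clus (ext s0 ω) l i) (ctr s (clus (ext s0 ω) l i) i)
            + 2 * rad (clus (ext s0 ω) l i) (ctr s (clus (ext s0 ω) l i) j)) := by
        intro s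
        unfold fst lev rho cen
        rw [clus_update s0 ω l s l le_rfl, clus_update s0 ω l s l le_rfl, ext_update_self,
          if_pos h, ← h]
      rw [sum_congr rfl fun s _ => e s]
      have hi := self_mem (ext s0 ω) l i
      have hj : j ∈ clus (ext s0 ω) l i := by rw [h]; exact self_mem _ _ _
      refine (sep_cost hN hi hj hij ((rad_le_of_forall ⟨i, hi⟩ (fun y _ => hD i y)).trans hND)).trans ?_
      apply mul_le_mul_of_nonneg_left _ hS.le
      apply mul_le_mul_of_nonneg_right _ dist_nonneg
      have := harmonic_mono (card_le_univ (clus (ext s0 ω) l i))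
      linarith
    · have e : ∀ s : Seed M N, fst (ext s0 (Function.update ω l s)) l i j = 0 := by
        intro s
        unfold fst
        rw [clus_update s0 ω l s l le_rfl, clus_update s0 ω l s l le_rfl, if_neg h]
      rw [sum_congr rfl fun s _ => e s, sum_const_zero]
      have hH : (0 : ℝ) ≤ harmonic (Fintype.card M) := by
        have : (0 : ℚ) ≤ harmonic (Fintype.card M) := by unfold harmonic; positivity
        exact_mod_cast this
      positivity
  calc ∑ ω : Fin k → Seed M N, ∑ s : Seed M N, fst (ext s0 (Function.update ω l s)) l i j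
      ≤ ∑ _ω : Fin k → Seed M N, (Fintype.card (Seed M N) : ℝ) *
          ((88 * harmonic (Fintype.card M) + 8) * dist i j) := sum_le_sum fun ω _ => key ω
    _ = _ := by rw [sum_const, nsmul_eq_mul, card_univ]; ring

end Pool.Agent.Lib44.Emb
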