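import Pool.Agent.Lib_helper44.Emb.Clus
import Pool.Agent.Lib_helper37.MAP.Interface

/-!
Random cut families: proof of `EmbStatement`.
-/

set_option linter.unusedSectionVars false

namespace Pool.Agent.Lib44.Emb

open Finset Pool.Agent.Lib37.MAP

universe u

section
variable {M : Type u} [Fintype M] [DecidableEq M] [MetricSpace M] {N : ℕ}

/-- The sets of the family. -/
noncomputable def fam (k : ℕ) (ω : ℕ → Seed M N) : (Fin k × M) ⊕ M → Finset M
  | Sum.inl p => univ.filter fun i => cen ω p.1 i = p.2
  | Sum.inr j => {j}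

/-- The weights of the family. -/
noncomputable def wt (k : ℕ) (ε : ℝ) (ω : ℕ → Seed M N) : (Fin k × M) ⊕ M → ℝ
  | Sum.inl p => 2 * rad (clus ω p.1 p.2) p.2
  | Sum.inr _ => ε

theorem sum_ind (f : M → ℝ) (c c' : M) :
    ∑ z, f z * |(if c = z then (1 : ℝ) else 0) - (if c' = z then (1 : ℝ) else 0)|
      = if c = c' then 0 else f c + f c' := by
  by_cases h : c = c'
  · subst h; simp
  · rw [if_neg h]
    have e : ∀ z, f z * |(if c = z then (1 : ℝ) else 0) - (if c' = z then (1 : ℝ) else 0)|
        = (if c = z then f z else 0) + (if c' = z then f z else 0) := by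
      intro z
      by_cases h1 : c = z
      · subst h1
        rw [if_pos rfl, if_neg (fun h' => h h'.symm), if_pos rfl, if_neg (fun h' => h h'.symm)]
        simp
      · by_cases h2 : c' = z
        · subst h2
          rw [if_neg h, if_pos rfl, if_neg h, if_pos rfl]
          simp
        · rw [if_neg h1, if_neg h2, if_neg h1, if_neg h2]; simp
    rw [sum_congr rfl fun z _ => e z, sum_add_distrib, sum_ite_eq, sum_ite_eq,
      if_pos (mem_univ _), if_pos (mem_univ _)]

theorem cutDist_fam (k : ℕ) (ε : ℝ) (ω : ℕ → Seed M N) (i j : M) :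
    cutDist (fam k ω) (wt k ε ω) i j =
      ∑ l ∈ range k, lev ω l i j + (if i = j then 0 else ε + ε) := by
  unfold cutDist
  rw [Fintype.sum_sum_type, Fintype.sum_prod_type]
  congr 1
  · rw [← Fin.sum_univ_eq_sum_range (fun l => lev ω l i j)]
    apply sum_congr rfl
    intro l _
    have e := sum_ind (fun z => 2 * rad (clus ω l z) z) (cen ω l i) (cen ω l j)
    simp only [fam, wt, mem_filter, mem_univ, true_and]
    rw [e, lev, rho, rho, clus_cen, clus_cen]
  · have e := sum_ind (fun _ => ε) i j
    simp only [fam, wt, mem_singleton]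
    exact e

theorem card_fam_le (k : ℕ) (ω : ℕ → Seed M N) (i : M) :
    (univ.filter fun u => i ∈ fam k ω u).card ≤ k + 1 := by
  have h : (univ.filter fun u => i ∈ fam k ω u) ⊆
      (univ : Finset (Fin k ⊕ Unit)).image
        (fun p => match p with
          | Sum.inl l => Sum.inl (l, cen ω l i)
          | Sum.inr _ => Sum.inr i) := by
    intro u hu
    rw [mem_filter] at hu
    rw [mem_image]
    rcases u with ⟨l, z⟩ | j
    · have h1 := hu.2
      simp only [fam, mem_filter, mem_univ, true_and] at h1
      exact ⟨Sum.inl l, mem_univ _, by simp [h1]⟩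
    · have h1 := hu.2
      simp only [fam, mem_singleton] at h1
      exact ⟨Sum.inr (), mem_univ _, by simp [h1]⟩
  refine (card_le_card h).trans (card_image_le.trans ?_)
  simp

end

theorem embStatement : EmbStatement.{u} := by
  refine ⟨2000, ?_⟩
  intro M _ _ _ hM
  classical
  set n := Fintype.card M with hn
  have hne : Nonempty M := by
    rw [← Fintype.card_pos_iff]; omega
  -- constants
  obtain ⟨D, hD⟩ : ∃ D : ℝ, ∀ x y : M, dist x y ≤ D := by
    obtain ⟨p, _, hp⟩ := (univ : Finset (M × M)).exists_max_image (fun p => dist p.1 p.2)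
      univ_nonempty
    exact ⟨dist p.1 p.2, fun x y => hp (x, y) (mem_univ _)⟩
  obtain ⟨ε, hε, hεd⟩ : ∃ ε : ℝ, 0 < ε ∧ ∀ x y : M, x ≠ y → ε ≤ dist x y := by
    obtain ⟨x0, y0, hxy0⟩ : ∃ x y : M, x ≠ y := by
      have : 1 < Fintype.card M := by omega
      exact Fintype.exists_pair_of_one_lt_card this
    obtain ⟨p, hp1, hp⟩ := (univ.filter fun p : M × M => p.1 ≠ p.2).exists_min_image
      (fun p => dist p.1 p.2) ⟨(x0, y0), by simp [hxy0]⟩
    rw [mem_filter] at hp1
    exact ⟨dist p.1 p.2, dist_pos.mpr hp1.2, fun x y hxy => hp (x, y) (by simp [hxy])⟩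
  set N : ℕ := ⌈D / ε⌉₊ + 1 with hNdef
  have hN : 0 < N := Nat.succ_pos _
  have hD0 : 0 ≤ D := dist_nonneg.trans (hD hne.some hne.some)
  have hNd : ∀ x y : M, x ≠ y → D ≤ N * dist x y := by
    intro x y hxy
    have h1 : D / ε ≤ N := by
      rw [hNdef]; push_cast
      have := Nat.le_ceil (D / ε)
      linarith
    rw [div_le_iff₀ hε] at h1
    refine h1.trans ?_
    exact mul_le_mul_of_nonneg_left (hεd x y hxy) (by positivity)
  set k : ℕ := Nat.log 2 n + 1 with hk
  have hk2 : n < 2 ^ k := Nat.lt_pow_succ_log_self (by norm_num) n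
  let s0 : Seed M N := (Fintype.equivFin M, ⟨0, hN⟩)
  -- logs
  have hlog2 : 0.6931471803 < Real.log 2 := Real.log_two_gt_d9
  have hlogn : Real.log 2 ≤ Real.log n := by
    apply Real.log_le_log (by norm_num)
    exact_mod_cast hM
  have hlogk : (k : ℝ) * Real.log 2 ≤ Real.log n + Real.log 2 := by
    have h1 : (2 : ℝ) ^ (Nat.log 2 n) ≤ n := by
      exact_mod_cast Nat.pow_log_le_self 2 (by omega)
    have h2 := Real.log_le_log (by positivity) h1
    rw [Real.log_pow] at h2
    rw [hk]; push_cast
    linarith
  have hk3 : (k : ℝ) ≤ 3 * Real.log n := by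
    have h0 : (0 : ℝ) ≤ k := by positivity
    nlinarith
  refine ⟨Fin k → Seed M N, (Fin k × M) ⊕ M, inferInstance, ⟨fun _ => s0⟩, inferInstance,
    fun ω => fam k (ext s0 ω), fun ω => wt k ε (ext s0 ω), k + 1, ?_, ?_, ?_, ?_, ?_, ?_, ?_⟩
  · intro ω u
    rcases u with p | j
    · simp only [wt]
      have := rad_nonneg (clus (ext s0 ω) p.1 p.2) p.2
      positivity
    · exact hε.le
  · intro ω j
    exact ⟨Sum.inr j, rfl, hε⟩
  · intro ω i
    exact card_fam_le k (ext s0 ω) i
  · push_cast
    linarith
  · have h1 : Fintype.card ((Fin k × M) ⊕ M) = (k + 1) * n := by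
      rw [Fintype.card_sum, Fintype.card_prod, Fintype.card_fin]; ring
    rw [h1]
    push_cast
    have h2 : (k : ℝ) + 1 ≤ 3 * n := by
      have h3 : k ≤ n := by
        rw [hk]
        have := Nat.log_lt_self 2 (x := n) (by omega)
        omega
      have h4 : (k : ℝ) ≤ n := by exact_mod_cast h3
      have h5 : (2 : ℝ) ≤ n := by exact_mod_cast hM
      linarith
    have h5 : (0 : ℝ) ≤ n := by positivity
    nlinarith
  · intro ω i j
    rw [cutDist_fam]
    have h1 := dist_le_sum_lev (ext s0 ω) hk2 i j
    have h2 : (0 : ℝ) ≤ (if i = j then 0 else ε + ε) := by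
      split_ifs <;> linarith
    linarith
  · intro i j
    by_cases hij : i = j
    · subst hij
      have e : ∀ ω : Fin k → Seed M N, cutDist (fam k (ext s0 ω)) (wt k ε (ext s0 ω)) i i = 0 := by
        intro ω
        unfold cutDist
        simp
      rw [sum_congr rfl fun ω _ => e ω]
      simp
    · have hd : 0 < dist i j := dist_pos.mpr hij
      set H : ℝ := (harmonic n : ℝ) with hH
      have hH1 : H ≤ 1 + Real.log n := harmonic_le_one_add_log n
      have hH0 : 0 ≤ H := by
        have : (0 : ℚ) ≤ harmonic n := by unfold harmonic; positivity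
        rw [hH]
        exact_mod_cast this
      have h1 : ∀ ω : Fin k → Seed M N, cutDist (fam k (ext s0 ω)) (wt k ε (ext s0 ω)) i j
          ≤ 2 * ∑ l ∈ range k, fst (ext s0 ω) l i j + 2 * dist i j := by
        intro ω
        rw [cutDist_fam, if_neg hij]
        have h2 := sum_lev_le (ext s0 ω) (Nat.log 2 n) i j
        have h3 := lev_nonneg (ext s0 ω) (Nat.log 2 n) i j
        have h4 := hεd i j hij
        rw [← hk] at h2
        linarith
      calc ∑ ω : Fin k → Seed M N, cutDist (fam k (ext s0 ω)) (wt k ε (ext s0 ω)) i j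
          ≤ ∑ ω : Fin k → Seed M N, (2 * ∑ l ∈ range k, fst (ext s0 ω) l i j + 2 * dist i j) :=
            sum_le_sum fun ω _ => h1 ω
        _ = 2 * ∑ l : Fin k, ∑ ω : Fin k → Seed M N, fst (ext s0 ω) l i j
            + (Fintype.card (Fin k → Seed M N) : ℝ) * (2 * dist i j) := by
            rw [sum_add_distrib, ← mul_sum, sum_const, nsmul_eq_mul, card_univ]
            congr 2
            rw [sum_comm, ← Fin.sum_univ_eq_sum_range
              (fun l => ∑ ω : Fin k → Seed M N, fst (ext s0 ω) l i j)]
        _ ≤ 2 * ∑ _l : Fin k, (Fintype.card (Fin k → Seed M N) : ℝ) *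
              ((88 * H + 8) * dist i j)
            + (Fintype.card (Fin k → Seed M N) : ℝ) * (2 * dist i j) := by
            have h2 : ∑ l : Fin k, ∑ ω : Fin k → Seed M N, fst (ext s0 ω) l i j ≤
                ∑ _l : Fin k, (Fintype.card (Fin k → Seed M N) : ℝ) *
                  ((88 * H + 8) * dist i j) :=
              sum_le_sum fun l _ => sum_fst_le hN s0 l hij hD (hNd i j hij)
            linarith
        _ = (Fintype.card (Fin k → Seed M N) : ℝ) *
              ((2 * k * (88 * H + 8) + 2) * dist i j) := by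
            rw [sum_const, nsmul_eq_mul, card_univ, Fintype.card_fin]; ring
        _ ≤ (Fintype.card (Fin k → Seed M N) : ℝ) *
              (2000 * Real.log n ^ 2 * dist i j) := by
            apply mul_le_mul_of_nonneg_left _ (by positivity)
            apply mul_le_mul_of_nonneg_right _ hd.le
            have hL : 0.69 ≤ Real.log n := by linarith
            have h3 : (1 : ℝ) ≤ 1.45 * Real.log n := by linarith
            have h4 : 88 * H + 8 ≤ 88 * (2.45 * Real.log n) + 8 * (1.45 * Real.log n) := by linarith
            have h5 : 2 * (k : ℝ) * (88 * H + 8) ≤ 2 * (3 * Real.log n) *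
                (88 * (2.45 * Real.log n) + 8 * (1.45 * Real.log n)) := by
              apply mul_le_mul
              · linarith
              · exact h4
              · positivity
              · positivity
            nlinarith

end Pool.Agent.Lib44.Emb

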