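import Mathlib

/-!
Half-radii of finite subsets of a metric space, random orders, harmonic sums.
-/

namespace Pool.Agent.Lib44.Emb

open Finset

universe u
variable {M : Type u}

section Rad
variable [MetricSpace M]

/-- The points `y` of `S` such that the ball about `x` through `y` has more than half of `S`. -/
noncomputable def good (S : Finset M) (x : M) : Finset M :=
  S.filter fun y => S.card < 2 * (S.filter fun y' => dist x y' ≤ dist x y).card

/-- The half radius. -/
noncomputable def rad (S : Finset M) (x : M) : ℝ :=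
  if h : (good S x).Nonempty then (good S x).inf' h (dist x) else 0

theorem good_nonempty {S : Finset M} (hS : S.Nonempty) (x : M) : (good S x).Nonempty := by
  obtain ⟨y, hy, hmax⟩ := S.exists_max_image (dist x) hS
  refine ⟨y, ?_⟩
  rw [good, mem_filter]
  refine ⟨hy, ?_⟩
  have : (S.filter fun y' => dist x y' ≤ dist x y) = S := by
    rw [filter_eq_self]; exact hmax
  rw [this]
  have := hS.card_pos
  omega

theorem rad_attained {S : Finset M} (hS : S.Nonempty) (x : M) :
    ∃ y ∈ good S x, rad S x = dist x y := by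
  have h := good_nonempty hS x
  rw [rad, dif_pos h]
  obtain ⟨y, hy, h2⟩ := (good S x).exists_mem_eq_inf' h (dist x)
  exact ⟨y, hy, h2⟩

theorem rad_nonneg (S : Finset M) (x : M) : 0 ≤ rad S x := by
  by_cases hS : S.Nonempty
  · obtain ⟨y, _, h⟩ := rad_attained hS x
    rw [h]; exact dist_nonneg
  · rw [rad, dif_neg]
    rw [not_nonempty_iff_eq_empty] at hS
    subst hS
    simp [good]

/-- (R2) -/
theorem card_ball {S : Finset M} (hS : S.Nonempty) (x : M) :
    S.card < 2 * (S.filter fun y => dist x y ≤ rad S x).card := by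
  obtain ⟨y, hy, h⟩ := rad_attained hS x
  rw [h]
  rw [good, mem_filter] at hy
  exact hy.2

/-- (R1) -/
theorem card_open_ball {S : Finset M} (x : M) :
    2 * (S.filter fun y => dist x y < rad S x).card ≤ S.card := by
  by_contra hcon
  push Not at hcon
  have hne : (S.filter fun y => dist x y < rad S x).Nonempty := by
    rw [← card_pos]; omega
  obtain ⟨y0, hy0, hmax⟩ := exists_max_image _ (dist x) hne
  rw [mem_filter] at hy0
  have hg : y0 ∈ good S x := by
    rw [good, mem_filter]
    refine ⟨hy0.1, lt_of_lt_of_le hcon ?_⟩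
    apply Nat.mul_le_mul_left
    apply card_le_card
    intro y hy
    rw [mem_filter] at hy ⊢
    exact ⟨hy.1, hmax y (by rw [mem_filter]; exact hy)⟩
  have h1 : rad S x ≤ dist x y0 := by
    rw [rad, dif_pos ⟨y0, hg⟩]
    exact inf'_le _ hg
  exact absurd hy0.2 (not_lt.mpr h1)

theorem rad_le {S : Finset M} {x : M} {t : ℝ}
    (h : S.card < 2 * (S.filter fun y => dist x y ≤ t).card) : rad S x ≤ t := by
  by_contra hcon
  push Not at hcon
  have h1 := card_open_ball (S := S) x
  have h2 : (S.filter fun y => dist x y ≤ t).card ≤ (S.filter fun y => dist x y < rad S x).card := by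
    apply card_le_card
    intro y hy
    rw [mem_filter] at hy ⊢
    exact ⟨hy.1, lt_of_le_of_lt hy.2 hcon⟩
  omega

/-- (R3) -/
theorem dist_le_rad_add {S : Finset M} (hS : S.Nonempty) (x y : M) :
    dist x y ≤ rad S x + rad S y := by
  classical
  have hx := card_ball hS x
  have hy := card_ball hS y
  have hne : ((S.filter fun z => dist x z ≤ rad S x) ∩ (S.filter fun z => dist y z ≤ rad S y)).Nonempty := by
    rw [← card_pos]
    have h1 := card_union_add_card_inter (S.filter fun z => dist x z ≤ rad S x)
      (S.filter fun z => dist y z ≤ rad S y)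
    have h2 : ((S.filter fun z => dist x z ≤ rad S x) ∪ (S.filter fun z => dist y z ≤ rad S y)).card
        ≤ S.card := by
      apply card_le_card
      exact union_subset (filter_subset _ _) (filter_subset _ _)
    omega
  obtain ⟨z, hz⟩ := hne
  rw [mem_inter, mem_filter, mem_filter] at hz
  calc dist x y ≤ dist x z + dist z y := dist_triangle _ _ _
    _ = dist x z + dist y z := by rw [dist_comm z y]
    _ ≤ _ := add_le_add hz.1.2 hz.2.2

/-- (R4) -/
theorem rad_le_rad_add {S : Finset M} (hS : S.Nonempty) (x y : M) :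
    rad S x ≤ rad S y + dist x y := by
  apply rad_le
  refine lt_of_lt_of_le (card_ball hS y) ?_
  apply Nat.mul_le_mul_left
  apply card_le_card
  intro z hz
  rw [mem_filter] at hz ⊢
  refine ⟨hz.1, ?_⟩
  calc dist x z ≤ dist x y + dist y z := dist_triangle _ _ _
    _ ≤ _ := by linarith [hz.2]

/-- (R5) -/
theorem rad_le_of_forall {S : Finset M} (hS : S.Nonempty) {x : M} {D : ℝ}
    (h : ∀ y ∈ S, dist x y ≤ D) : rad S x ≤ D := by
  apply rad_le
  have : (S.filter fun y' => dist x y' ≤ D) = S := by
    rw [filter_eq_self]; exact h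
  rw [this]
  have := hS.card_pos
  omega

/-- (R6) -/
theorem rad_pos {S : Finset M} (hS : 2 ≤ S.card) (x : M) : 0 < rad S x := by
  rcases (rad_nonneg S x).lt_or_eq with h | h
  · exact h
  · exfalso
    have hne : S.Nonempty := by rw [← card_pos]; omega
    have h1 := card_ball hne x
    rw [← h] at h1
    have h2 : (S.filter fun y => dist x y ≤ 0).card ≤ 1 := by
      rw [card_le_one]
      intro a ha b hb
      rw [mem_filter] at ha hb
      have e1 : x = a := dist_le_zero.mp ha.2
      have e2 : x = b := dist_le_zero.mp hb.2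
      rw [← e1, ← e2]
    omega

end Rad

section First
variable [Fintype M]

/-- The first element of `Z` in the order given by `σ` (junk value `d` if `Z` is empty). -/
noncomputable def first (σ : M ≃ Fin (Fintype.card M)) (Z : Finset M) (d : M) : M :=
  if h : Z.Nonempty then (Z.exists_min_image σ h).choose else d

theorem first_mem {σ : M ≃ Fin (Fintype.card M)} {Z : Finset M} (h : Z.Nonempty) (d : M) :
    first σ Z d ∈ Z := by
  rw [first, dif_pos h]
  exact (Z.exists_min_image σ h).choose_spec.1

theorem first_le {σ : M ≃ Fin (Fintype.card M)} {Z : Finset M} (h : Z.Nonempty) (d : M) :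
    ∀ z ∈ Z, σ (first σ Z d) ≤ σ z := by
  rw [first, dif_pos h]
  exact (Z.exists_min_image σ h).choose_spec.2

theorem first_eq {σ : M ≃ Fin (Fintype.card M)} {Z : Finset M} {z : M} (hz : z ∈ Z)
    (h : ∀ z' ∈ Z, σ z ≤ σ z') (d : M) : first σ Z d = z := by
  have hne : Z.Nonempty := ⟨z, hz⟩
  apply σ.injective
  exact le_antisymm (first_le hne d z hz) (h _ (first_mem hne d))

theorem first_congr {σ : M ≃ Fin (Fintype.card M)} {Z : Finset M} (h : Z.Nonempty) (d d' : M) :
    first σ Z d = first σ Z d' := by
  rw [first, first, dif_pos h, dif_pos h]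

theorem first_swap [DecidableEq M] {σ : M ≃ Fin (Fintype.card M)} {Z : Finset M} {z z' d : M}
    (hz : z ∈ Z) (hz' : z' ∈ Z) (h : first σ Z d = z) :
    first ((Equiv.swap z z').trans σ) Z d = z' := by
  apply first_eq hz'
  intro w hw
  have hmin : ∀ w ∈ Z, σ z ≤ σ w := by
    rw [← h]; exact first_le ⟨z, hz⟩ d
  simp only [Equiv.trans_apply, Equiv.swap_apply_right]
  apply hmin
  by_cases h1 : w = z
  · subst h1; simpa using hz'
  · by_cases h2 : w = z'
    · subst h2; simpa using hz
    · rw [Equiv.swap_apply_of_ne_of_ne h1 h2]; exact hw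

theorem card_first_eq [DecidableEq M] {Z : Finset M} {z z' : M} (d : M)
    (hz : z ∈ Z) (hz' : z' ∈ Z) :
    (univ.filter fun σ : M ≃ Fin (Fintype.card M) => first σ Z d = z).card
      = (univ.filter fun σ : M ≃ Fin (Fintype.card M) => first σ Z d = z').card := by
  refine card_bij' (fun σ _ => (Equiv.swap z z').trans σ) (fun σ _ => (Equiv.swap z z').trans σ)
    ?_ ?_ ?_ ?_
  · intro σ hσ
    rw [mem_filter] at hσ ⊢
    exact ⟨mem_univ _, first_swap hz hz' hσ.2⟩
  · intro σ hσ
    rw [mem_filter] at hσ ⊢
    refine ⟨mem_univ _, ?_⟩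
    rw [Equiv.swap_comm]
    exact first_swap hz' hz hσ.2
  · intro σ _
    ext x; simp
  · intro σ _
    ext x; simp

/-- Every element of `Z` is equally often the first one. -/
theorem card_first_mul [DecidableEq M] {Z : Finset M} {z : M} (d : M) (hz : z ∈ Z) :
    (univ.filter fun σ : M ≃ Fin (Fintype.card M) => first σ Z d = z).card * Z.card
      = Fintype.card (M ≃ Fin (Fintype.card M)) := by
  have h1 : (univ : Finset (M ≃ Fin (Fintype.card M))).card
      = ∑ z' ∈ Z, (univ.filter fun σ : M ≃ Fin (Fintype.card M) => first σ Z d = z').card :=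
    card_eq_sum_card_fiberwise (fun σ _ => first_mem ⟨z, hz⟩ d)
  change _ = (univ : Finset (M ≃ Fin (Fintype.card M))).card
  rw [h1, sum_congr rfl (fun z' hz' => card_first_eq d hz' hz), sum_const,
    smul_eq_mul, mul_comm]

end First

section Harm

theorem sum_inv_rank_le {ι : Type*} [DecidableEq ι] (a : ι → ℝ) (S : Finset ι) :
    ∑ z ∈ S, (1 : ℝ) / ((S.filter fun z' => a z' ≤ a z).card : ℝ) ≤ (harmonic S.card : ℝ) := by
  induction S using Finset.induction_on_max_value a with
  | empty => simp
  | insert b s hb hmax ih =>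
    rw [sum_insert hb, card_insert_of_notMem hb, harmonic_succ]
    have h1 : ((insert b s).filter fun z' => a z' ≤ a b) = insert b s := by
      rw [filter_eq_self]
      intro z hz
      rcases mem_insert.mp hz with h | h
      · rw [h]
      · exact hmax z h
    rw [h1, card_insert_of_notMem hb]
    have h2 : ∑ z ∈ s, (1 : ℝ) / (((insert b s).filter fun z' => a z' ≤ a z).card : ℝ)
        ≤ ∑ z ∈ s, (1 : ℝ) / ((s.filter fun z' => a z' ≤ a z).card : ℝ) := by
      apply sum_le_sum
      intro z hz
      have hpos : 0 < (s.filter fun z' => a z' ≤ a z).card := by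
        rw [card_pos]; exact ⟨z, by rw [mem_filter]; exact ⟨hz, le_refl _⟩⟩
      apply one_div_le_one_div_of_le
      · exact_mod_cast hpos
      · have : (s.filter fun z' => a z' ≤ a z).card
            ≤ ((insert b s).filter fun z' => a z' ≤ a z).card :=
          card_le_card (filter_subset_filter _ (subset_insert _ _))
        exact_mod_cast this
    push_cast
    have h3 : (1 : ℝ) / ((s.card : ℝ) + 1) = ((s.card : ℝ) + 1)⁻¹ := one_div _
    rw [h3]
    linarith

theorem card_le_of_mem_Ico {s : Finset ℕ} {A B : ℝ} (hAB : A ≤ B)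
    (h : ∀ q ∈ s, A ≤ (q : ℝ) ∧ (q : ℝ) < B) : (s.card : ℝ) ≤ B - A + 1 := by
  rcases s.eq_empty_or_nonempty with h0 | hne
  · subst h0; simp; linarith
  · have h1 := h _ (s.min'_mem hne)
    have h2 := h _ (s.max'_mem hne)
    have h3 : s ⊆ Finset.Icc (s.min' hne) (s.max' hne) := by
      intro q hq
      rw [Finset.mem_Icc]
      exact ⟨s.min'_le q hq, s.le_max' q hq⟩
    have h4 := card_le_card h3
    rw [Nat.card_Icc] at h4
    have h5 : s.min' hne ≤ s.max' hne := s.min'_le _ (s.max'_mem hne)
    have h6 : (s.card : ℝ) ≤ ((s.max' hne + 1 - s.min' hne : ℕ) : ℝ) := by exact_mod_cast h4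
    rw [Nat.cast_sub (by omega)] at h6
    push_cast at h6
    linarith [h1.1, h2.2]

end Harm

end Pool.Agent.Lib44.Emb
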