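import Pool.Agent.Lib_helper44.Emb.Rad

/-!
Seeds, centres, and the probability that two points are separated.
-/

set_option linter.unusedSectionVars false

namespace Pool.Agent.Lib44.Emb

open Finset

universe u
variable {M : Type u} [Fintype M] [DecidableEq M] [MetricSpace M]

/-- Seeds: an order of the points and a parameter. -/
abbrev Seed (M : Type u) [Fintype M] (N : ℕ) : Type u :=
  (M ≃ Fin (Fintype.card M)) × Fin N

/-- The radius parameter, in `[1/8, 1/4)`. -/
noncomputable def al {N : ℕ} (q : Fin N) : ℝ := 1 / 8 + (q : ℝ) / (8 * N)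

theorem al_pos {N : ℕ} (q : Fin N) : 0 < al q := by unfold al; positivity

theorem al_le {N : ℕ} (q : Fin N) : al q ≤ 1 / 4 := by
  have hN : (0 : ℝ) < N := by exact_mod_cast q.pos
  have h1 : (q : ℝ) ≤ N := by exact_mod_cast q.isLt.le
  have h2 : (q : ℝ) / (8 * N) ≤ 1 / 8 := by
    rw [div_le_iff₀ (by positivity)]; linarith
  unfold al; linarith

/-- Candidates for the centre of `x`. -/
noncomputable def cand (a : ℝ) (S : Finset M) (x : M) : Finset M :=
  S.filter fun z => dist x z ≤ a * rad S z

/-- The centre of `x` in `S`. -/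
noncomputable def ctr {N : ℕ} (s : Seed M N) (S : Finset M) (x : M) : M :=
  first s.1 (cand (al s.2) S x) x

theorem mem_cand_self {N : ℕ} (q : Fin N) {S : Finset M} {x : M} (hx : x ∈ S) :
    x ∈ cand (al q) S x := by
  rw [cand, mem_filter]
  refine ⟨hx, ?_⟩
  rw [dist_self]
  exact mul_nonneg (al_pos q).le (rad_nonneg S x)

theorem ctr_mem_cand {N : ℕ} (s : Seed M N) {S : Finset M} {x : M} (hx : x ∈ S) :
    ctr s S x ∈ cand (al s.2) S x :=
  first_mem ⟨x, mem_cand_self s.2 hx⟩ x

theorem ctr_mem {N : ℕ} (s : Seed M N) {S : Finset M} {x : M} (hx : x ∈ S) : ctr s S x ∈ S := by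
  have := ctr_mem_cand s hx
  rw [cand, mem_filter] at this
  exact this.1

theorem dist_ctr {N : ℕ} (s : Seed M N) {S : Finset M} {x : M} (hx : x ∈ S) :
    dist x (ctr s S x) ≤ al s.2 * rad S (ctr s S x) := by
  have := ctr_mem_cand s hx
  rw [cand, mem_filter] at this
  exact this.2

theorem dist_ctr' {N : ℕ} (s : Seed M N) {S : Finset M} {x : M} (hx : x ∈ S) :
    dist x (ctr s S x) ≤ 1 / 4 * rad S (ctr s S x) :=
  (dist_ctr s hx).trans (mul_le_mul_of_nonneg_right (al_le _) (rad_nonneg _ _))

theorem rad_ctr_le {N : ℕ} (s : Seed M N) {S : Finset M} {x : M} (hx : x ∈ S) :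
    rad S (ctr s S x) ≤ 4 / 3 * rad S x := by
  have h1 := dist_ctr' s hx
  have h2 := rad_le_rad_add ⟨x, hx⟩ (ctr s S x) x
  rw [dist_comm] at h2
  linarith

theorem rad_le_ctr {N : ℕ} (s : Seed M N) {S : Finset M} {x : M} (hx : x ∈ S) :
    rad S x ≤ 5 / 4 * rad S (ctr s S x) := by
  have h1 := dist_ctr' s hx
  have h2 := rad_le_rad_add ⟨x, hx⟩ x (ctr s S x)
  linarith

theorem card_al_le {N : ℕ} (hN : 0 < N) {a b : ℝ} (hab : a ≤ b) :
    ((univ.filter fun q : Fin N => a ≤ al q ∧ al q < b).card : ℝ) ≤ 8 * N * (b - a) + 1 := by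
  have hN' : (0 : ℝ) < N := by exact_mod_cast hN
  have h1 : (univ.filter fun q : Fin N => a ≤ al q ∧ al q < b).card
      = ((univ.filter fun q : Fin N => a ≤ al q ∧ al q < b).map Fin.valEmbedding).card := by
    rw [card_map]
  rw [h1]
  have h2 := card_le_of_mem_Ico
    (s := (univ.filter fun q : Fin N => a ≤ al q ∧ al q < b).map Fin.valEmbedding)
    (A := 8 * N * (a - 1 / 8)) (B := 8 * N * (b - 1 / 8))
    (by nlinarith) (by
      intro q hq
      rw [mem_map] at hq
      obtain ⟨q', hq', rfl⟩ := hq
      rw [mem_filter] at hq'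
      obtain ⟨_, h3, h4⟩ := hq'
      have e : (q' : ℝ) = 8 * N * (al q' - 1 / 8) := by
        unfold al; field_simp; ring
      have e' : ((Fin.valEmbedding q' : ℕ) : ℝ) = 8 * N * (al q' - 1 / 8) := e
      rw [e']
      constructor
      · apply mul_le_mul_of_nonneg_left _ (by positivity)
        linarith
      · apply mul_lt_mul_of_pos_left _ (by positivity)
        linarith)
  refine h2.trans ?_
  nlinarith

/-- Separation forces the first candidate of one of the two points to miss the other one. -/
theorem sep_imp {N : ℕ} (s : Seed M N) {S : Finset M} {x y : M} (hx : x ∈ S)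
    (hpos : ∀ z, 0 < rad S z) (h : ctr s S x ≠ ctr s S y) :
    first s.1 (S.filter fun z => min (dist x z) (dist y z) / rad S z ≤ al s.2) x
        ∈ (S.filter fun z => min (dist x z) (dist y z) / rad S z ≤ al s.2) ∧
    al s.2 < max (dist x (first s.1 (S.filter fun z => min (dist x z) (dist y z) / rad S z ≤ al s.2) x))
        (dist y (first s.1 (S.filter fun z => min (dist x z) (dist y z) / rad S z ≤ al s.2) x))
      / rad S (first s.1 (S.filter fun z => min (dist x z) (dist y z) / rad S z ≤ al s.2) x) := by
  set Z := (S.filter fun z => min (dist x z) (dist y z) / rad S z ≤ al s.2) with hZ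
  have hxZ : x ∈ Z := by
    rw [hZ, mem_filter]
    refine ⟨hx, ?_⟩
    rw [dist_self, min_eq_left dist_nonneg, zero_div]
    exact (al_pos _).le
  have hm := first_mem (σ := s.1) ⟨x, hxZ⟩ x
  have hl := first_le (σ := s.1) ⟨x, hxZ⟩ x
  set z := first s.1 Z x with hz
  refine ⟨hm, ?_⟩
  by_contra hcon
  push Not at hcon
  rw [div_le_iff₀ (hpos z)] at hcon
  apply h
  have hzS : z ∈ S := (mem_filter.mp hm).1
  have key : ∀ w : M, (w = x ∨ w = y) → ctr s S w = z := by
    intro w hw
    apply first_eq
    · rw [cand, mem_filter]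
      refine ⟨hzS, ?_⟩
      rcases hw with rfl | rfl
      · exact (le_max_left _ _).trans hcon
      · exact (le_max_right _ _).trans hcon
    · intro z' hz'
      apply hl
      rw [cand, mem_filter] at hz'
      rw [hZ, mem_filter]
      refine ⟨hz'.1, ?_⟩
      rw [div_le_iff₀ (hpos z')]
      rcases hw with rfl | rfl
      · exact (min_le_left _ _).trans hz'.2
      · exact (min_le_right _ _).trans hz'.2
  rw [key x (Or.inl rfl), key y (Or.inr rfl)]

theorem sep_prob {N : ℕ} (hN : 0 < N) {S : Finset M} {x y : M} (hx : x ∈ S)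
    (hpos : ∀ z, 0 < rad S z) {m : ℝ} (hm : 0 < m) (hmx : m ≤ rad S x) (hmy : m ≤ rad S y)
    (hNm : m ≤ N * dist x y) :
    (((univ : Finset (Seed M N)).filter fun s => ctr s S x ≠ ctr s S y).card : ℝ) * m ≤
      (Fintype.card (Seed M N) : ℝ) * (11 * dist x y * harmonic S.card) := by
  classical
  set a : M → ℝ := fun z => min (dist x z) (dist y z) / rad S z with ha
  set b : M → ℝ := fun z => max (dist x z) (dist y z) / rad S z with hb
  have hab : ∀ z, a z ≤ b z := fun z =>
    div_le_div_of_nonneg_right (min_le_max) (hpos z).le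
  set Z : Fin N → Finset M := fun q => S.filter fun z => a z ≤ al q with hZ
  set k : M → ℕ := fun z => (S.filter fun z' => a z' ≤ a z).card with hk
  set P : ℝ := (Fintype.card (M ≃ Fin (Fintype.card M)) : ℝ) with hP
  have hP0 : 0 ≤ P := by positivity
  -- step 1
  have h1 : (((univ : Finset (Seed M N)).filter fun s => ctr s S x ≠ ctr s S y).card : ℝ)
      ≤ ∑ q : Fin N, ∑ z ∈ S, (if a z ≤ al q ∧ al q < b z then
          ((univ.filter fun σ : M ≃ Fin (Fintype.card M) => first σ (Z q) x = z).card : ℝ) else 0) := by
    rw [card_filter]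
    push_cast
    rw [Fintype.sum_prod_type_right]
    apply sum_le_sum
    intro q _
    have e : ∀ z ∈ S, (if a z ≤ al q ∧ al q < b z then
          ((univ.filter fun σ : M ≃ Fin (Fintype.card M) => first σ (Z q) x = z).card : ℝ) else 0)
        = ∑ σ : M ≃ Fin (Fintype.card M), (if a z ≤ al q ∧ al q < b z ∧ first σ (Z q) x = z
            then (1 : ℝ) else 0) := by
      intro z _
      by_cases hz : a z ≤ al q ∧ al q < b z
      · rw [if_pos hz, card_filter]
        push_cast
        apply sum_congr rfl
        intro σ _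
        by_cases hσ : first σ (Z q) x = z
        · rw [if_pos hσ, if_pos ⟨hz.1, hz.2, hσ⟩]
        · rw [if_neg hσ, if_neg (fun h => hσ h.2.2)]
      · rw [if_neg hz]
        symm
        apply sum_eq_zero
        intro σ _
        rw [if_neg (fun h => hz ⟨h.1, h.2.1⟩)]
    rw [sum_congr rfl e, sum_comm]
    apply sum_le_sum
    intro σ _
    by_cases hs : ctr (σ, q) S x ≠ ctr (σ, q) S y
    · rw [if_pos hs]
      obtain ⟨h2, h3⟩ := sep_imp (σ, q) hx hpos hs
      have h4 : first σ (Z q) x ∈ S := (mem_filter.mp h2).1
      have h5 : a (first σ (Z q) x) ≤ al q := (mem_filter.mp h2).2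
      have h6 : al q < b (first σ (Z q) x) := h3
      refine le_trans ?_ (single_le_sum (f := fun z => if a z ≤ al q ∧ al q < b z ∧ first σ (Z q) x = z
            then (1 : ℝ) else 0) (fun z _ => by positivity) h4)
      exact (if_pos ⟨h5, h6, rfl⟩).ge
    · rw [if_neg hs]
      apply sum_nonneg
      intro z _
      positivity
  -- step 2
  have h2 : ∀ q : Fin N, ∀ z ∈ S, (if a z ≤ al q ∧ al q < b z then
          ((univ.filter fun σ : M ≃ Fin (Fintype.card M) => first σ (Z q) x = z).card : ℝ) else 0)
        ≤ (if a z ≤ al q ∧ al q < b z then (1 : ℝ) else 0) * (P * (1 / (k z : ℝ))) := by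
    intro q z hz
    by_cases hq : a z ≤ al q ∧ al q < b z
    · rw [if_pos hq, if_pos hq, one_mul]
      have hzZ : z ∈ Z q := by rw [hZ]; exact mem_filter.mpr ⟨hz, hq.1⟩
      have h3 := card_first_mul x hzZ
      have h4 : (((univ.filter fun σ : M ≃ Fin (Fintype.card M) => first σ (Z q) x = z).card : ℝ))
          * ((Z q).card : ℝ) = P := by
        rw [hP, ← h3]; push_cast; rfl
      have h5 : k z ≤ (Z q).card := by
        apply card_le_card
        intro w hw
        rw [mem_filter] at hw
        rw [hZ]
        exact mem_filter.mpr ⟨hw.1, hw.2.trans hq.1⟩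
      have h6 : 0 < k z := by
        rw [hk]
        simp only []
        rw [card_pos]
        exact ⟨z, by rw [mem_filter]; exact ⟨hz, le_refl _⟩⟩
      rw [mul_one_div, le_div_iff₀ (by exact_mod_cast h6), ← h4]
      apply mul_le_mul_of_nonneg_left _ (by positivity)
      exact_mod_cast h5
    · rw [if_neg hq, if_neg hq, zero_mul]
  -- step 3
  have h3 : ∀ z ∈ S, (∑ q : Fin N, (if a z ≤ al q ∧ al q < b z then (1 : ℝ) else 0)) * m
      ≤ N * (11 * dist x y) := by
    intro z _
    have e : (∑ q : Fin N, (if a z ≤ al q ∧ al q < b z then (1 : ℝ) else 0))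
        = ((univ.filter fun q : Fin N => a z ≤ al q ∧ al q < b z).card : ℝ) := by
      rw [card_filter]; push_cast; rfl
    rw [e]
    by_cases hne : (univ.filter fun q : Fin N => a z ≤ al q ∧ al q < b z).Nonempty
    · obtain ⟨q, hq⟩ := hne
      rw [mem_filter] at hq
      have h4 : a z ≤ 1 / 4 := hq.2.1.trans (al_le q)
      have h5 : min (dist x z) (dist y z) ≤ 1 / 4 * rad S z := by
        rw [ha] at h4
        simp only [] at h4
        rwa [div_le_iff₀ (hpos z)] at h4
      have h6 : m ≤ 5 / 4 * rad S z := by
        rcases le_total (dist x z) (dist y z) with h | h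
        · rw [min_eq_left h] at h5
          have := rad_le_rad_add ⟨x, hx⟩ x z
          linarith
        · rw [min_eq_right h] at h5
          have := rad_le_rad_add ⟨x, hx⟩ y z
          linarith
      have h7 : b z - a z ≤ dist x y / rad S z := by
        rw [ha, hb]
        simp only []
        rw [← sub_div]
        apply div_le_div_of_nonneg_right _ (hpos z).le
        rw [max_sub_min_eq_abs']
        rw [abs_sub_le_iff]
        constructor
        · have := dist_triangle x y z; linarith
        · have := dist_triangle y x z; rw [dist_comm y x] at this; linarith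
      have h8 := card_al_le hN (hab z)
      have hN' : (0 : ℝ) < N := by exact_mod_cast hN
      calc ((univ.filter fun q : Fin N => a z ≤ al q ∧ al q < b z).card : ℝ) * m
          ≤ (8 * N * (b z - a z) + 1) * m := mul_le_mul_of_nonneg_right h8 hm.le
        _ ≤ (8 * N * (dist x y / rad S z) + 1) * m := by
            apply mul_le_mul_of_nonneg_right _ hm.le
            have : 8 * N * (b z - a z) ≤ 8 * N * (dist x y / rad S z) :=
              mul_le_mul_of_nonneg_left h7 (by positivity)
            linarith
        _ = 8 * N * dist x y * (m / rad S z) + m := by ring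
        _ ≤ 8 * N * dist x y * (5 / 4) + N * dist x y := by
            have h9 : m / rad S z ≤ 5 / 4 := by
              rw [div_le_iff₀ (hpos z)]; exact h6
            have h10 : 8 * N * dist x y * (m / rad S z) ≤ 8 * N * dist x y * (5 / 4) :=
              mul_le_mul_of_nonneg_left h9 (by positivity)
            linarith
        _ = N * (11 * dist x y) := by ring
    · rw [not_nonempty_iff_eq_empty] at hne
      rw [hne]
      simp only [card_empty, Nat.cast_zero, zero_mul]
      positivity
  have hcard : (Fintype.card (Seed M N) : ℝ) = P * N := by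
    rw [Fintype.card_prod, Fintype.card_fin]; push_cast; rfl
  calc (((univ : Finset (Seed M N)).filter fun s => ctr s S x ≠ ctr s S y).card : ℝ) * m
      ≤ (∑ q : Fin N, ∑ z ∈ S, (if a z ≤ al q ∧ al q < b z then (1 : ℝ) else 0)
          * (P * (1 / (k z : ℝ)))) * m := by
        apply mul_le_mul_of_nonneg_right _ hm.le
        exact h1.trans (sum_le_sum fun q _ => sum_le_sum (h2 q))
    _ = ∑ z ∈ S, ((∑ q : Fin N, (if a z ≤ al q ∧ al q < b z then (1 : ℝ) else 0)) * m)
          * (P * (1 / (k z : ℝ))) := by
        rw [sum_comm, sum_mul]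
        apply sum_congr rfl
        intro z _
        rw [← sum_mul]
        ring
    _ ≤ ∑ z ∈ S, (N * (11 * dist x y)) * (P * (1 / (k z : ℝ))) := by
        apply sum_le_sum
        intro z hz
        exact mul_le_mul_of_nonneg_right (h3 z hz) (by positivity)
    _ = (P * N) * (11 * dist x y * ∑ z ∈ S, (1 : ℝ) / (k z : ℝ)) := by
        rw [← mul_sum, ← mul_sum]; ring
    _ ≤ (P * N) * (11 * dist x y * harmonic S.card) := by
        apply mul_le_mul_of_nonneg_left _ (by positivity)
        apply mul_le_mul_of_nonneg_left _ (by positivity)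
        exact sum_inv_rank_le a S
    _ = _ := by rw [hcard]

/-- Expected cost of a separation. -/
theorem sep_cost {N : ℕ} (hN : 0 < N) {S : Finset M} {x y : M} (hx : x ∈ S) (hy : y ∈ S)
    (hxy : x ≠ y) (hNm : rad S x ≤ N * dist x y) :
    ∑ s : Seed M N, (if ctr s S x = ctr s S y then (0 : ℝ) else
        2 * rad S (ctr s S x) + 2 * rad S (ctr s S y))
      ≤ (Fintype.card (Seed M N) : ℝ) * ((88 * harmonic S.card + 8) * dist x y) := by
  classical
  have hcard : 2 ≤ S.card := by
    have : ({x, y} : Finset M) ⊆ S := by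
      intro z hz
      rw [mem_insert, mem_singleton] at hz
      rcases hz with rfl | rfl <;> assumption
    have h2 := card_le_card this
    rwa [card_pair hxy] at h2
  have hpos : ∀ z, 0 < rad S z := fun z => rad_pos hcard z
  have hd : 0 < dist x y := dist_pos.mpr hxy
  set m := min (rad S x) (rad S y) with hm
  have hm0 : 0 < m := lt_min (hpos x) (hpos y)
  have hsum : rad S x + rad S y ≤ 2 * m + dist x y := by
    have h1 := rad_le_rad_add ⟨x, hx⟩ x y
    have h2 := rad_le_rad_add ⟨x, hx⟩ y x
    rw [dist_comm y x] at h2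
    rcases le_total (rad S x) (rad S y) with h | h
    · rw [hm, min_eq_left h]; linarith
    · rw [hm, min_eq_right h]; linarith
  have hterm : ∀ s : Seed M N, 2 * rad S (ctr s S x) + 2 * rad S (ctr s S y)
      ≤ 8 / 3 * (2 * m + dist x y) := by
    intro s
    have h1 := rad_ctr_le s hx
    have h2 := rad_ctr_le s hy
    linarith
  have hH : (0 : ℝ) ≤ harmonic S.card := by
    have : (0 : ℚ) ≤ harmonic S.card := by
      unfold harmonic; positivity
    exact_mod_cast this
  rcases le_total m (dist x y) with h | h
  · calc ∑ s : Seed M N, (if ctr s S x = ctr s S y then (0 : ℝ) else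
        2 * rad S (ctr s S x) + 2 * rad S (ctr s S y))
        ≤ ∑ _s : Seed M N, 8 * dist x y := by
          apply sum_le_sum
          intro s _
          split_ifs
          · positivity
          · have := hterm s; linarith
      _ = (Fintype.card (Seed M N) : ℝ) * (8 * dist x y) := by
          rw [sum_const, nsmul_eq_mul, card_univ]
      _ ≤ _ := by
          apply mul_le_mul_of_nonneg_left _ (by positivity)
          have : 0 ≤ 88 * (harmonic S.card : ℝ) * dist x y := by positivity
          linarith
  · have hp := sep_prob hN hx hpos hm0 (min_le_left _ _) (min_le_right _ _)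
      ((min_le_left _ _).trans hNm)
    calc ∑ s : Seed M N, (if ctr s S x = ctr s S y then (0 : ℝ) else
        2 * rad S (ctr s S x) + 2 * rad S (ctr s S y))
        ≤ ∑ s : Seed M N, (if ctr s S x ≠ ctr s S y then (1 : ℝ) else 0) * (8 * m) := by
          apply sum_le_sum
          intro s _
          by_cases hs : ctr s S x = ctr s S y
          · rw [if_pos hs, if_neg (by simpa using hs)]; simp
          · rw [if_neg hs, if_pos hs, one_mul]
            have := hterm s; linarith
      _ = 8 * ((((univ : Finset (Seed M N)).filter fun s => ctr s S x ≠ ctr s S y).card : ℝ) * m) := by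
          rw [← sum_mul, card_filter]; push_cast; ring
      _ ≤ 8 * ((Fintype.card (Seed M N) : ℝ) * (11 * dist x y * harmonic S.card)) := by
          linarith
      _ ≤ _ := by
          have : (0 : ℝ) ≤ (Fintype.card (Seed M N) : ℝ) * (8 * dist x y) := by positivity
          nlinarith

end Pool.Agent.Lib44.Emb
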